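import Mathlib
import Pool.Agent.Y388.CF.Basic

set_option autoImplicit false

/-!
# `c(F) ≤ 1` for every almost bipartite graph `F`

In an `F`-free graph no neighbourhood contains `K_{t,t}`. For such graphs the local occupancy
inequality holds, for all small vertex weights, with the same constants as for triangle-free
graphs, and the counting method for list colourings gives `(1 + o(1)) Δ / log Δ` colours.
-/

namespace Pool.Agent.Results.MP_349e33_co.AlmostBipartite

open Pool.Agent.TH855

/-- `F` is almost bipartite: it is bipartite, or it becomes bipartite on deleting one vertex. -/
def NearBipartite {W : Type} (F : SimpleGraph W) : Prop :=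
  F.Colorable 2 ∨ ∃ x, (F.induce {y | y ≠ x}).Colorable 2

/-- If the finite graph `F` is almost bipartite then `c(F) ≤ 1`. -/
theorem result {W : Type} [Fintype W] (F : SimpleGraph W) (hF : NearBipartite F) : c F ≤ 1 :=
  Pool.Agent.Y388.CF.c_almost_bipartite F hF

end Pool.Agent.Results.MP_349e33_co.AlmostBipartite
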