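import Mathlib
import Pool.Agent.Y388.CF.Transversal

set_option autoImplicit false

/-!
# `c(F) ≤ k` for bipartite graphs together with independent vertices of degree at most `k`

In particular `c(F)` is at most the maximum degree of `F` for every `3`-colourable graph `F` with
at least one edge.
-/

namespace Pool.Agent.Results.MP_349e33_co.BoundedTransversal

open Pool.Agent.TH855

/-- There is an independent set `X` of vertices of `F`, each of degree at most `k` in `F`, such
that `F - X` is bipartite. -/
def HasTransversal {W : Type} (F : SimpleGraph W) (k : ℕ) : Prop :=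
  ∃ X : Set W, (∀ a ∈ X, ∀ b ∈ X, ¬ F.Adj a b) ∧ (F.induce Xᶜ).Colorable 2 ∧
    ∀ x ∈ X, (F.neighborSet x).ncard ≤ k

/-- If `k ≥ 1` and the finite graph `F` has an independent set of vertices of degree at most `k`
whose deletion makes it bipartite, then `c(F) ≤ k`. -/
theorem result {W : Type} [Fintype W] (F : SimpleGraph W) (k : ℕ) (hk : 1 ≤ k)
    (hF : HasTransversal F k) : c F ≤ k := by
  obtain ⟨X, h1, h2, h3⟩ := hF
  exact Pool.Agent.Y388.CF.bounded_transversal F X k hk (fun a b ha hb => h1 a ha b hb) h2 h3

end Pool.Agent.Results.MP_349e33_co.BoundedTransversal
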