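import Mathlib
import Pool.Agent.Y388.CF.Multi

set_option autoImplicit false

/-!
# Reduction of `r`-colourable graphs composed of small pieces to the clique `K_r`
-/

namespace Pool.Agent.Results.MP_349e33_co.CliqueReduction

open Pool.Agent.TH855
open scoped ENNReal

/-- `Glued F k P`: the vertices and the edges of `F` are covered by finitely many sets
`B 0, …, B (m - 1)` of vertices (the pieces), each with the property `P`, such that every piece
`B i` with `i > 0` meets the union of the earlier pieces inside one earlier piece `B j`, and either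
is contained in `B j` or has at most `k` vertices in common with it. -/
def Glued {W : Type} (F : SimpleGraph W) (k : ℕ) (P : Set W → Prop) : Prop :=
  ∃ (m : ℕ) (B : ℕ → Set W), (∀ w, ∃ i < m, w ∈ B i) ∧
    (∀ a b, F.Adj a b → ∃ i < m, a ∈ B i ∧ b ∈ B i) ∧ (∀ i < m, P (B i)) ∧
    ∀ i < m, 0 < i → ∃ j < i, (∀ l < i, B i ∩ B l ⊆ B j) ∧
      (B i ⊆ B j ∨ (B i ∩ B j).ncard ≤ k)

/-- Let `R ≥ 2` and let `C` be a proper colouring of the finite graph `F` with the `R + 1` colours
`0, …, R`. If `F` is composed in a tree-like way, along sets of at most `k` vertices, of pieces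
each containing at most `s ≥ 1` vertices of each of the colours `0, …, R - 1` (and arbitrarily many
vertices of colour `R`), then
`c(F) ≤ (k + 2) ∏_{i = 0}^{R} (i (s + 1) + R - i) · c(K_{R+1})`, and for three colours
`c(F) ≤ 2 (k + 2) (s + 1)`. -/
theorem result {W : Type} [Fintype W] (F : SimpleGraph W) (R s k : ℕ) (hR : 2 ≤ R)
    (hs : 1 ≤ s) (C : F.Coloring (Fin (R + 1)))
    (hF : Glued F k (fun B => ∀ q : Fin (R + 1), q ≠ Fin.last R →
      (B ∩ {w | C w = q}).ncard ≤ s)) :
    c F ≤ (((k + 2) * ∏ i ∈ Finset.range (R + 1), (i * (s + 1) + (R - i)) : ℕ) : ℝ≥0∞) *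
      c (⊤ : SimpleGraph (Fin (R + 1))) ∧
    (R = 2 → c F ≤ ((2 * (k + 2) * (s + 1) : ℕ) : ℝ≥0∞)) := by
  obtain ⟨m, B, h1, h2, h3, h4⟩ := hF
  exact Pool.Agent.Y388.CF.pieces_bound F R s k hR hs C m B h1 h2 h3 h4

end Pool.Agent.Results.MP_349e33_co.CliqueReduction
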