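import Mathlib
import Pool.Agent.Y388.CF.Transversal

set_option autoImplicit false

/-!
# `c(F) ≤ k + 2` for tree-like gluings of almost bipartite pieces along at most `k` vertices
-/

namespace Pool.Agent.Results.MP_349e33_co.GluedAlmostBipartite

open Pool.Agent.TH855

/-- `Glued F k P`: the vertices and the edges of `F` are covered by finitely many sets
`B 0, …, B (m - 1)` of vertices (the pieces), each with the property `P`, such that every piece
`B i` with `i > 0` meets the union of the earlier pieces inside one earlier piece `B j`, and either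
is contained in `B j` or has at most `k` vertices in common with it. -/
def Glued {W : Type} (F : SimpleGraph W) (k : ℕ) (P : Set W → Prop) : Prop :=
  ∃ (m : ℕ) (B : ℕ → Set W), (∀ w, ∃ i < m, w ∈ B i) ∧
    (∀ a b, F.Adj a b → ∃ i < m, a ∈ B i ∧ b ∈ B i) ∧ (∀ i < m, P (B i)) ∧
    ∀ i < m, 0 < i → ∃ j < i, (∀ l < i, B i ∩ B l ⊆ B j) ∧
      (B i ⊆ B j ∨ (B i ∩ B j).ncard ≤ k)

/-- Let `F` be a finite graph with an independent set `X` of vertices such that `F - X` is
bipartite. If `F` is composed in a tree-like way, along sets of at most `k` vertices, of pieces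
each containing at most one vertex of `X`, then `c(F) ≤ k + 2`. -/
theorem result {W : Type} [Fintype W] (F : SimpleGraph W) (X : Set W) (k : ℕ)
    (hX : ∀ a ∈ X, ∀ b ∈ X, ¬ F.Adj a b) (hb : (F.induce Xᶜ).Colorable 2)
    (hF : Glued F k (fun B => (B ∩ X).Subsingleton)) : c F ≤ k + 2 := by
  obtain ⟨m, B, h1, h2, h3, h4⟩ := hF
  exact Pool.Agent.Y388.CF.separated F X k (fun a b ha hb => hX a ha b hb) hb m B h1 h2 h3 h4

end Pool.Agent.Results.MP_349e33_co.GluedAlmostBipartite
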